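import Pool.Agent.Run7.h736.AU.Fin2

/-!
# All automorphic twists of an arbitrary Chow motive, and the automorphic part of a motive

Let `M` be any Chow motive over `ℚ` and `H = H^w(M)`, of dimension `N`.  Nothing is known about the
`L`-function `L(H, s)` to the left of the line `Re s = w/2 + 1` at the edge of the half plane of
absolute convergence, and even on this line its zeros and poles are not known.  Let `π` run through all
unitary cuspidal automorphic representations of all the groups `GL(n)` over `ℚ`, `n ≥ 1`.  (Poles of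
`L(H × π~, s)` are expected only for the constituents `π` of `H`, and zeros never.)

1. Among all the points of the edge lines of all the `L(H × π~, s)` at most `N²` are zeros or poles; the sum
   of the squares of all orders is at most the order `k ≤ N²` of the pole of `L(H ⊗ H^∨, s)` at its edge.
   For the size of the `L`-functions no continuation is needed.
2. The orders determine the mean square distance of the traces of Frobenius on `H` to the traces of an
   isobaric sum: it is at most `k - ∑ r²` for the sum of the `π ⊗ |det|^{-iτ}` with the multiplicities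
   `-r`, `r` the order at `w/2 + 1 + iτ`.  So if `∑ r² = k`, for example if `L(H ⊗ H^∨, s)` has a simple pole
   and one `L(H × π~, s)` has a pole, then `H` is automorphic in the mean square, and all the other
   twists tend to order `0`, without any continuation.
3. Conversely, if the traces of Frobenius on `H` are within the mean square distance `< 1` of those of an
   isobaric sum, for example if they agree at the primes outside a set of small density, then the
   orders of all the `L(H × π~, s)` on the edge line are the negatives of the multiplicities.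

The proof is Bessel's inequality in the Hilbert space of all prime powers, with the weights of
`log ζ(s)`, so that neither the conjecture of Ramanujan nor hypothesis H is needed for 1 and 2.

The definitions are in `Pool.Agent.Y149.TL.Defs` (motives, Euler factors, sizes, orders) and in
`Pool.Agent.Run7.h736.AU` (`Sys` in the file `Sys`, `IsCuspidal` in `Fam`, `IsTwist` and `IsSquare` in
`Mot`, `MeanSqLE` and `Hi` in `Mean`, `ntr` and `atr` in `Main`).
-/

set_option autoImplicit false

namespace Pool.Agent.Results.MP_148101_nt.AllCuspidalTwists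

open Filter Topology Polynomial
open Pool.Agent.Y149.CM (LFun)
open Pool.Agent.Y149.TL (Motive edge size HasOrder)
open Run7.h736.AU

/-- **All cuspidal twists.**  `π_e`, `e ∈ ι`, are unitary cuspidal automorphic representations of groups
`GL(n_e)` over `ℚ` with the known properties of their Rankin-Selberg `L`-functions, for example all those
whose central character is trivial on the positive real numbers.  `M` is the cohomology of a motive
over `ℚ`, of weight `w` and rank `N` (only the eigenvalues of Frobenius at almost all primes matter).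
`x = (e, τ)` stands for `π_e` and the point `w/2 + 1 + iτ`; `B_x` are the Euler factors of
`L(M × π_e~, s)`, and `D` those of `L(M ⊗ M^∨, s - w)`.
1. (No continuation is assumed.) For every finite set `S` of pairs `x` and every `η > 0`, for all small
`ε > 0` the value of `L(M × π_e~, s)` at `w/2 + 1 + iτ + ε` is not `0` for `x ∈ S`, and for the numbers
`s_x = log |L(M × π_e~, w/2 + 1 + iτ + ε)| / log(1/ε)` the sum `∑ s_x²` is at most `N² + η`, and at most
`s + η`, where `s = log |L(M ⊗ M^∨, 1 + ε)| / log(1/ε) ≤ N² + η`.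
2. If the orders `r_x` exist for `x ∈ S`, then `∑ r_x² ≤ N²`.
3. There is a set `E` of at most `N²` pairs, and at most `k` if `L(M ⊗ M^∨, s)` has a pole of order `k` at
`s = 1`, such that `r_x = 0` for all `x` not in `E` for which the order exists.
4. Let `L(M ⊗ M^∨, s)` have a pole of order `k` at `s = 1`, and let the orders `r_x` exist for `x ∈ S`. Then
`∑ r_x² ≤ k ≤ N²`; the mean square over the primes of `tr(M) + ∑ r_x tr(π_e) p^{iτ}` is at most
`k - ∑ r_x²`; and if `∑ r_x² = k`, then for all `y ∉ S` the number `s_y` tends to `0` for `ε → 0`.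
5. Let `n_x` be integers, `0` for `x` outside a finite set `T`, and suppose that the `π_e`, `(e, τ) ∈ T`,
satisfy the weak form `Hi` of hypothesis H, for example that they are tempered.  If the mean square of
`tr(M) - ∑ n_x tr(π_e) p^{iτ}` is less than `1`, then `r_x = -n_x` for all `x` for which the order exists.
6. In particular, this is the case if `tr(M) = ∑ n_x tr(π_e) p^{iτ}` at almost all primes outside a set of
density `δ`, the `π_e`, `(e, τ) ∈ T`, are tempered, and `(N + ∑ |n_x| rank(π_e))² δ < 1`. -/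
theorem result (ι : Type) (π : ι → Sys) (hπ : IsCuspidal π) (M : Motive) :
    (∀ (S : Finset (ι × ℝ)) (B : ι × ℝ → Nat.Primes → ℂ[X]),
      (∀ x ∈ S, IsTwist M (π x.1) (B x)) → ∀ η : ℝ, 0 < η →
      (∀ᶠ ε : ℝ in 𝓝[>] 0, (∀ x ∈ S, LFun (B x) (edge M.weight x.2 + ε) ≠ 0) ∧
        ∑ x ∈ S, size M.weight (B x) x.2 ε ^ 2 ≤ (M.rank : ℝ) ^ 2 + η) ∧
      ∀ D : Nat.Primes → ℂ[X], IsSquare M D → ∀ᶠ ε : ℝ in 𝓝[>] 0,
        ∑ x ∈ S, size M.weight (B x) x.2 ε ^ 2 ≤ size (2 * M.weight) D 0 ε + η ∧
        size (2 * M.weight) D 0 ε ≤ (M.rank : ℝ) ^ 2 + η) ∧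
    (∀ (S : Finset (ι × ℝ)) (B : ι × ℝ → Nat.Primes → ℂ[X]) (r : ι × ℝ → ℤ),
      (∀ x ∈ S, IsTwist M (π x.1) (B x)) → (∀ x ∈ S, HasOrder M.weight (B x) x.2 (r x)) →
      ∑ x ∈ S, r x ^ 2 ≤ (M.rank : ℤ) ^ 2) ∧
    (∃ E : Finset (ι × ℝ), E.card ≤ M.rank ^ 2 ∧
      (∀ (D : Nat.Primes → ℂ[X]) (k : ℤ), IsSquare M D → HasOrder (2 * M.weight) D 0 (-k) →
        (E.card : ℤ) ≤ k) ∧
      ∀ (x : ι × ℝ) (B : Nat.Primes → ℂ[X]), IsTwist M (π x.1) B → ∀ r : ℤ,
        HasOrder M.weight B x.2 r → x ∉ E → r = 0) ∧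
    (∀ (D : Nat.Primes → ℂ[X]) (k : ℤ), IsSquare M D → HasOrder (2 * M.weight) D 0 (-k) →
      ∀ (S : Finset (ι × ℝ)) (B : ι × ℝ → Nat.Primes → ℂ[X]) (r : ι × ℝ → ℤ),
      (∀ x ∈ S, IsTwist M (π x.1) (B x)) → (∀ x ∈ S, HasOrder M.weight (B x) x.2 (r x)) →
      ∑ x ∈ S, r x ^ 2 ≤ k ∧ k ≤ (M.rank : ℤ) ^ 2 ∧
      MeanSqLE (fun p => ntr M p + ∑ x ∈ S, (r x : ℂ) * atr π x p) (k - ∑ x ∈ S, r x ^ 2 : ℤ) ∧
      (∑ x ∈ S, r x ^ 2 = k → ∀ y ∉ S, ∀ C : Nat.Primes → ℂ[X], IsTwist M (π y.1) C →
        Tendsto (fun ε => size M.weight C y.2 ε) (𝓝[>] 0) (𝓝 0))) ∧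
    (∀ (T : Finset (ι × ℝ)) (n : ι × ℝ → ℤ), (∀ x, x ∉ T → n x = 0) →
      (∀ x ∈ T, Hi (π x.1).tr) →
      ∀ K : ℝ, K < 1 → MeanSqLE (fun p => ntr M p - ∑ x ∈ T, (n x : ℂ) * atr π x p) K →
      ∀ (x : ι × ℝ) (B : Nat.Primes → ℂ[X]), IsTwist M (π x.1) B → ∀ r : ℤ,
        HasOrder M.weight B x.2 r → r = -n x) ∧
    ∀ (T : Finset (ι × ℝ)) (n : ι × ℝ → ℤ), (∀ x, x ∉ T → n x = 0) →
      (∀ x ∈ T, ∀ p, p ∉ (π x.1).bad → ∀ z ∈ (π x.1).ev p, ‖z‖ ≤ 1) →
      ∀ (P : Set Nat.Primes) (δ : ℝ), MeanSqLE (P.indicator 1) δ →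
      (∀ᶠ p in cofinite, p ∉ P → ntr M p = ∑ x ∈ T, (n x : ℂ) * atr π x p) →
      ((M.rank : ℝ) + ∑ x ∈ T, |(n x : ℝ)| * (π x.1).rank) ^ 2 * δ < 1 →
      ∀ (x : ι × ℝ) (B : Nat.Primes → ℂ[X]), IsTwist M (π x.1) B → ∀ r : ℤ,
        HasOrder M.weight B x.2 r → r = -n x := by
  refine ⟨fun S B hB η hη => ⟨one_mean_rank hπ M S hB hη, fun D hD =>
      one_mean_square hπ M hD S hB hη⟩,
    fun S B r hB hr => one_order hπ M S hB hr, exceptional hπ M,
    fun D k hD hk S B r hB hr => ?_,
    fun T n hn hT K hK1 hK x B hB r hr => iso_single hπ M T n hn hT hK hK1 x hB hr,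
    fun T n hn hT P δ hP hf hδ x B hB r hr => iso_density hπ M T n hn hT hP hf hδ x hB hr⟩
  obtain ⟨h1, h2⟩ := one_order_square hπ M hD hk S hB hr
  exact ⟨h1, h2, distance_mean hπ M hD hk S hB hr, fun heq y hy C hC =>
    equality_rest hπ M hD hk S hB hr heq.symm.le hy hC⟩

end Pool.Agent.Results.MP_148101_nt.AllCuspidalTwists
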