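import Pool.Agent.Run7.h186.NV4
import Pool.Agent.Run7.h186.NY2

/-!
# Tensor products of an arbitrary Chow motive with all Dirichlet characters and all newforms

Let `M` be any Chow motive over `ℚ` and `H = H^w(M)`, of dimension `N`.  Nothing is known about the
`L`-function `L(H, s)` to the left of the line `Re s = w/2 + 1` at the edge of the half plane of
absolute convergence, and even on this line its zeros and poles are not known.  Let `f` be a primitive
Dirichlet character or a newform, of any weight `k ≥ 1`, any level and any character, for example one of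
the forms which belong to the elliptic curves over `ℚ`, to the odd two-dimensional Artin
representations, or to any other two-dimensional motive which is modular.  We prove that among all the
`L(H ⊗ f, s)`, `f` running through ALL these characters and newforms together, at most `N²` have a pole
on the edge line and at most `N²` have a zero there.  (Poles are expected only for the at most `N` forms
which are dual to a constituent of `H`, and zeros never.)  The bound does not depend on anything else,
in particular not on the conductor of `M`, and holds for all heights on the line at once.  It is the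
same for all the `L(H ⊗ g ⊗ f, s)`, `g` any fixed newform.  More precisely, the bound is the order
`K ≤ N²` of the pole of `L(H ⊗ H^∨, s)`, or of `L((H ⊗ g) ⊗ (H ⊗ g)^∨, s)`, at its edge if it exists; it
is `1` in the case that `H` is absolutely irreducible and the conjecture of Tate holds.  For the size of
the `L`-functions at the edge no continuation is needed.  Moreover there is ONE infinite set of forms
which works for all motives and all multiple tensor products.

The proof contains the following theorems of the theory of automorphic forms, which are proved from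
scratch: for two different newforms (of different weights, characters or levels) the Rankin-Selberg
series is bounded near the edge line, as are the series of one newform away from the real point, and
the `L`-functions of the newforms twisted by Dirichlet characters.  The theorem of Deligne (the
Ramanujan-Petersson conjecture) is not used for the products with one or two newforms.

The last two parts give instances for which all the hypotheses are proved here: the motives
`A ⊗ H¹(E_1) ⊗ ⋯ ⊗ H¹(E_n)`, `A` any Artin representation of `ℚ` and `E_i` any elliptic curves over `ℚ` (in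
general their `L`-functions are not known to have a meromorphic continuation), and the infinite
family of all primitive Dirichlet characters and of the newforms of the quadratic twists of
`X_0(14)` by the prime numbers `l > 7`.  For the cohomology of other varieties the purity in the
definition of `Motive` is Deligne's theorem.

The definitions are in `Pool.Agent.Y149.TL.Defs` (motives, Euler factors, sizes, orders),
`Pool.Agent.Run7.h186.NUDefs` (eigenforms) and `Pool.Agent.Run7.h186.NVDefs` (tensor products).
-/

set_option autoImplicit false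

namespace Pool.Agent.Results.MP_148101_nt.AutomorphicTensors

open Filter Topology Polynomial NumberField
open Pool.Agent.Y149.CM (LFun)
open Pool.Agent.Y149.TL (Motive edge size HasOrder tensL)
open Pool.Agent.Y149.PK (frobE)
open Pool.Agent.W401.Cheb (HasFrob)
open Run7.h186.NV

/-- **Tensor products with Dirichlet characters and newforms.**  `M` is the cohomology of a motive over
`ℚ`, of rank `N` (only the eigenvalues of Frobenius at almost all primes matter).  The `f_e`, `e ∈ ι`, are
Dirichlet characters and normalised holomorphic Hecke eigenforms of any weights `≥ 1`, levels and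
characters which are pairwise different, for example all primitive Dirichlet characters and all
newforms.  `l = (l_1, …, l_k)` is a list of members of `ι`, for example the empty list, and
`M_e = M ⊗ f_e ⊗ f_{l_1} ⊗ ⋯ ⊗ f_{l_k}`, of weight `w_e`.  If `k ≥ 2` then the Ramanujan-Petersson
conjecture is assumed for those of `f_{l_2}, …, f_{l_k}` which are eigenforms; no such assumption is made
for `f_{l_1}` and for the `f_e`.  Let `K` be `N²` if `k ≤ 1` and `(N d_2 ⋯ d_k)²` if `k ≥ 1`, where
`d_i` is `1` or `2` if `f_{l_i}` is a character or an eigenform, or the order of the pole of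
`L(M_l ⊗ M_l^∨, s)` at the edge, `M_l = M ⊗ f_{l_1} ⊗ ⋯ ⊗ f_{l_k}`.
1. For every finite set `S` of pairs `x = (e, τ)`, `τ ∈ ℝ`, and every `η > 0`, for all small `ε > 0`
the value `L(M_e, w_e/2 + 1 + iτ + ε)` is not `0` for `x ∈ S`, and for the numbers
`s_x = log |L(M_e, w_e/2 + 1 + iτ + ε)| / log(1/ε)` the sum over `x ∈ S` of the squares of the positive
`s_x` is at most `K + η`, and so is the sum of the squares of the negative `s_x`.
2. For every finite set `S` of pairs `x = (e, τ)` such that the order `r_x` of `L(M_e, s)` at
`w_e/2 + 1 + iτ` exists, the sum of the squares of the positive `r_x` is at most `K`, and so is the sum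
of the squares of the negative `r_x`.
3. There are sets `F` and `G` of at most `K` forms such that `L(M_e, s)` has no pole on the edge line if
`e` is not in `F`, and no zero on the edge line if `e` is not in `G`, as far as it continues to a
neighbourhood of a point of the line.
4. If `ι` is infinite, then for every sequence `M_0, M_1, …` of motives there is an infinite subset `𝒥`
of `ι` with finite subsets `F_0, F_1, …` such that for every `j` and every list `l` of different members
of `𝒥`, not all of them in `F_j`, all orders of `L(M_j ⊗ f_{l_1} ⊗ ⋯ ⊗ f_{l_k}, s)` on the edge line are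
`0`.  (If `k ≥ 3` then the Ramanujan-Petersson conjecture is assumed for the `f_{l_i}`.)
5. For any elliptic curves `E_i : y² = x³ + a_i x + b_i`, `i < n`, and any representation `ρ` of dimension `d` of
the group of a Galois extension `L` of `ℚ`, the tensor product of `ρ` with the `H¹(E_i)` is a motive as
above, of weight `n` and rank `2^n d`: for almost all `p`, if `σ` is a Frobenius element at `p`, then its
eigenvalues are those of `ρ(σ)` times those of the `E_i`.
6. The primitive Dirichlet characters and the newforms of weight 2 of the curves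
`y² = x³ + 5805 l² x - 285714 l³` (the twists of `X_0(14)` by `l`), `l > 7` prime, are a family as above, and
satisfy the Ramanujan-Petersson conjecture. -/
theorem result :
    (∀ (ι : Type) (f : ι → Form), (∀ e e', e ≠ e' → (f e).Differ (f e')) →
    (∀ (M : Motive) (l : List ι) (K : ℕ), (∀ e ∈ l.tail, (f e).Ramanujan) → Bound M f l K →
      (∀ (S : Finset (ι × ℝ)) (B : ι × ℝ → Nat.Primes → ℂ[X]),
        (∀ x ∈ S, IsTensor M f (x.1 :: l) (B x)) → ∀ η : ℝ, 0 < η → ∀ᶠ ε : ℝ in 𝓝[>] 0,
        (∀ x ∈ S, LFun (B x) (edge (wt M f (x.1 :: l)) x.2 + ε) ≠ 0) ∧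
        ∑ x ∈ S, max (size (wt M f (x.1 :: l)) (B x) x.2 ε) 0 ^ 2 ≤ (K : ℝ) + η ∧
        ∑ x ∈ S, max (-size (wt M f (x.1 :: l)) (B x) x.2 ε) 0 ^ 2 ≤ (K : ℝ) + η) ∧
      (∀ (S : Finset (ι × ℝ)) (B : ι × ℝ → Nat.Primes → ℂ[X]) (r : ι × ℝ → ℤ),
        (∀ x ∈ S, IsTensor M f (x.1 :: l) (B x) ∧
          HasOrder (wt M f (x.1 :: l)) (B x) x.2 (r x)) →
        ∑ x ∈ S, max (r x) 0 ^ 2 ≤ (K : ℤ) ∧ ∑ x ∈ S, max (-r x) 0 ^ 2 ≤ (K : ℤ)) ∧
      (∃ F G : Finset ι, F.card ≤ K ∧ G.card ≤ K ∧
        ∀ (e : ι) (B : Nat.Primes → ℂ[X]), IsTensor M f (e :: l) B → ∀ (τ : ℝ) (r : ℤ),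
          HasOrder (wt M f (e :: l)) B τ r → (e ∉ F → 0 ≤ r) ∧ (e ∉ G → r ≤ 0))) ∧
    (Infinite ι → ∀ M : ℕ → Motive, ∃ 𝒥 : Set ι, 𝒥.Infinite ∧
      ∀ j, ∃ F : Finset ι, (∀ x ∈ F, x ∈ 𝒥) ∧
        ∀ l : List ι, l.Nodup → (∀ e ∈ l, e ∈ 𝒥) → (∃ e ∈ l, e ∉ F) →
        (l.length ≤ 2 ∨ ∀ e ∈ l, (f e).Ramanujan) →
        ∀ B : Nat.Primes → ℂ[X], IsTensor (M j) f l B →
        ∀ (τ : ℝ) (r : ℤ), HasOrder (wt (M j) f l) B τ r → r = 0)) ∧
    (∀ (n : ℕ) (a b : Fin n → ℤ), (∀ i, 4 * a i ^ 3 + 27 * b i ^ 2 ≠ 0) →
      ∀ (L : Type) [Field L] [NumberField L] [IsGalois ℚ L] (d : ℕ) (ρ : Gal(L/ℚ) →* GL (Fin d) ℂ),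
      ∃ M : Motive, M.weight = n ∧ M.rank = d * 2 ^ n ∧
        ∀ᶠ p : Nat.Primes in cofinite, ∀ [Fact (p : ℕ).Prime]
          (φ : 𝓞 L →+* AlgebraicClosure (ZMod p)) (σ : Gal(L/ℚ)), HasFrob (p : ℕ) φ σ → M.frob p =
            tensL ((ρ σ : GL (Fin d) ℂ) : Matrix (Fin d) (Fin d) ℂ).charpoly.roots
              (fun i => frobE (a i) (b i) p 1) (List.finRange n)) ∧
    ∃ f : (Σ N : ℕ, {χ : DirichletCharacter ℂ N // 0 < N ∧ χ.IsPrimitive}) ⊕
        {l : ℕ // l.Prime ∧ 7 < l} → Form,
      (∀ e e', e ≠ e' → (f e).Differ (f e')) ∧ (∀ e, (f e).Ramanujan) ∧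
      (∀ c, f (.inl c) = .chr c.1 c.2.1 c.2.2.1) ∧
      ∀ l : {l : ℕ // l.Prime ∧ 7 < l}, (∃ g, f (.inr l) = .cusp g ∧ g.weight = 2) ∧
        ∀ᶠ p : Nat.Primes in cofinite, (f (.inr l)).frob p =
          frobE (5805 * (l : ℤ) ^ 2) (-285714 * (l : ℤ) ^ 3) p 1 := by
  refine ⟨fun ι f hf => ?_, fun n a b _ L _ _ _ d ρ => Run7.h186.NY.exists_motive n a b L d ρ,
    Run7.h186.NY.exists_family⟩
  have hfam := fam_twF hf
  refine ⟨fun M l K hl hK => ?_, fun hι M => ?_⟩
  · have hl' : ∀ e ∈ l.tail, Run7.h186.NW.Ram (fun e => twF (f e)) (fun e => (f e).dim) e :=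
      fun e he => ram_twF (hl e he)
    have hK' := bound_twF hK
    refine ⟨fun S B hB η hη => ?_, fun S B r h => ?_, ?_⟩
    · have h1 := Run7.h186.NW.mean hfam M l hl' hK' S (fun x hx => tensL_twF (hB x hx)) hη
      simp only [wtL_twF] at h1
      exact h1
    · exact Run7.h186.NW.order hfam M l hl' hK' S (fun x hx => tensL_twF (h x hx).1)
        (fun x hx => by rw [wtL_twF]; exact (h x hx).2)
    · obtain ⟨F, G, h1, h2, h3⟩ := Run7.h186.NW.exceptional hfam M l hl' hK'
      refine ⟨F, G, h1, h2, fun e B hB τ r hr => ?_⟩
      exact h3 e B (tensL_twF hB) τ r (by rw [wtL_twF]; exact hr)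
  · obtain ⟨𝒥, h1, h2⟩ := Run7.h186.NW.universal (t := fun e => twF (f e)) hfam
      (fun e => (f e).dim) M
    refine ⟨𝒥, h1, fun j => ?_⟩
    obtain ⟨F, h3, h4⟩ := h2 j
    refine ⟨F, h3, fun l g1 g2 g3 g4 B hB τ r hr => ?_⟩
    exact h4 l g1 g2 g3 (g4.imp_right fun h e he => ram_twF (h e he)) B
      (tensL_twF hB) τ r (by rw [wtL_twF]; exact hr)

end Pool.Agent.Results.MP_148101_nt.AutomorphicTensors
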