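import Pool.Agent.Run7.h522.BM.Torus

/-!
# The joint distribution of the L-functions of motives on the edge of absolute convergence

A finite family of motives `M_m` over number fields `K_m`: the `m`-th one is a piece of `H^i(X_m)`,
stable under Frobenius, for a smooth projective variety `X_m` over `K_m` (`i = i_m`).  For a Chow
motive `(X, p, 0)` the piece is the image of the projector `p`, since `p` commutes with Frobenius.
The Euler product of `L(M_m, s)` converges absolutely for `Re s > i/2 + 1`.  The theorem says that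
the boundary values of the logarithms of all these functions on the edges have a joint limiting
distribution, the distribution of the logarithms of the random Euler products, in every sequence of
intervals whose lengths tend to infinity, and that also the mean values of the functions of
exponential growth converge.  No continuation and no automorphy is used or assumed.

`IsFrobenius`, `edgePoint` and `angle` are defined in `Pool/Agent/TH958/BV/Defs.lean`.
-/

set_option autoImplicit false

namespace Pool.Agent.Results.MP_148101_nt.EdgeDistribution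

open NumberField IsDedekindDomain Filter Topology MeasureTheory Pool.Agent.TH958.BV

/-- `α_1, …, α_N` are eigenvalues of Frobenius at `v` on a part of `H^i(X)`: a part, of size `N`, of
the multiset of the eigenvalues of Frobenius on `H^i(X)`. -/
def IsPart {K : Type} [Field K] [NumberField K] {n : ℕ} (X : Set (MvPolynomial (Fin n) (𝓞 K)))
    (d i : ℕ) (v : HeightOneSpectrum (𝓞 K)) {N : ℕ} (α : Fin N → ℂ) : Prop :=
  ∃ (N' : ℕ) (β : Fin N' → ℂ) (e : Fin N → Fin N'), Function.Injective e ∧
    IsFrobenius X d i v β ∧ ∀ j, α j = β (e j)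

/-- `log L_S(M, s) = ∑_{v ∉ S} ∑_j - log (1 - α_{v,j} q_v^{-s})`, where `q_v` is the norm of `v`. -/
noncomputable def logL {K : Type} [Field K] [NumberField K] {N : ℕ}
    (S : Set (HeightOneSpectrum (𝓞 K))) (α : HeightOneSpectrum (𝓞 K) → Fin N → ℂ) (s : ℂ) : ℂ :=
  ∑' v : {v : HeightOneSpectrum (𝓞 K) // v ∉ S},
    ∑ j, -Complex.log (1 - α v j * (Ideal.absNorm v.1.asIdeal : ℂ) ^ (-s))

/-- The sequences of independent points `z_2, z_3, z_5, …` of the circle, one for every prime number,
with the uniform distribution. -/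
noncomputable abbrev circles : Measure (ℕ → UnitAddCircle) :=
  Measure.infinitePi fun _ : ℕ => AddCircle.haarAddCircle (T := 1)

/-- The random completely multiplicative function `f` of Steinhaus: the values `f(p) = e^{-2πi z_p}` at
the prime numbers are independent and uniformly distributed on the unit circle.  (The point of the
`k`-th prime number is the `k`-th coordinate, `k = 0, 1, 2, …`.) -/
noncomputable def steinhaus (z : ℕ → UnitAddCircle) (n : ℕ) : ℂ :=
  n.factorization.prod fun p k => (fourier (-1) (z (Nat.count Nat.Prime p)) : ℂ) ^ k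

/-- The sum over `v ∉ S` with `q_v < Y` of `∑_j - log (1 - α_{v,j} q_v^{-i/2-1} f(q_v))`. -/
noncomputable def randomSum {K : Type} [Field K] [NumberField K] {N : ℕ}
    (S : Set (HeightOneSpectrum (𝓞 K))) (i : ℕ) (α : HeightOneSpectrum (𝓞 K) → Fin N → ℂ) (Y : ℕ)
    (z : ℕ → UnitAddCircle) : ℂ :=
  ∑ᶠ v ∈ {v : HeightOneSpectrum (𝓞 K) | v ∉ S ∧ Ideal.absNorm v.asIdeal < Y},
    ∑ j, -Complex.log (1 - α v j * (Ideal.absNorm v.asIdeal : ℂ) ^ (-(((i : ℝ) / 2 + 1 : ℝ) : ℂ)) *
      steinhaus z (Ideal.absNorm v.asIdeal))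

/-- **The joint distribution on the edge.**  There is an absolute constant `c > 0` such that for every
finite family of motives as above, with `N_m` eigenvalues of Frobenius at the primes outside a finite
set `S_m`, there are measurable functions `l = (l_m)` on the real line and `W = (W_m)` on the space of
the sequences of points of the circle with the following properties.

* `log L_S(M_m, s)` tends to `l_m(τ)` as `s` tends to `i/2 + 1 + iτ` in any angle in the half-plane
  `Re s > i/2 + 1`, for all `m` and almost all real `τ`.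
* `W_m` is the limit in mean square of the sums `randomSum`: it is the logarithm of the random Euler
  product.
* For every continuous function `φ` with
  `|φ(x)| ≤ A exp (c ∑_m |x_m| / (#M N_m [K_m : ℚ]))` for some `A` the mean value of `φ(l(τ))` over the
  interval `[a, b]` tends to the expectation of `φ(W)` as `b - a` tends to infinity, uniformly
  in `a`. -/
theorem result : ∃ c : ℝ, 0 < c ∧
    ∀ (M : Type) [Fintype M] (K : M → Type) [∀ m, Field (K m)] [∀ m, NumberField (K m)]
      (n d i N : M → ℕ) (X : ∀ m, Set (MvPolynomial (Fin (n m)) (𝓞 (K m))))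
      (_ : ∀ m, i m ≤ 2 * d m) (S : ∀ m, Set (HeightOneSpectrum (𝓞 (K m))))
      (_ : ∀ m, (S m).Finite) (α : ∀ m, HeightOneSpectrum (𝓞 (K m)) → Fin (N m) → ℂ)
      (_ : ∀ m v, v ∉ S m → IsPart (X m) (d m) (i m) v (α m v)),
      ∃ (l : ℝ → M → ℂ) (W : (ℕ → UnitAddCircle) → M → ℂ), Measurable l ∧
        (∀ᵐ τ : ℝ, ∀ (m : M) (A : ℝ),
          Tendsto (logL (S m) (α m)) (𝓝[angle (i m) τ A] (edgePoint (i m) τ)) (𝓝 (l τ m))) ∧
        (∀ m, MemLp (fun z => W z m) 2 circles ∧
          Tendsto (fun Y => ∫ z, ‖W z m - randomSum (S m) (i m) (α m) Y z‖ ^ 2 ∂circles) atTop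
            (𝓝 0)) ∧
        ∀ (φ : (M → ℂ) → ℂ) (A : ℝ), Continuous φ →
          (∀ x, ‖φ x‖ ≤ A * Real.exp (c *
            ∑ m, ‖x m‖ / (Fintype.card M * N m * Module.finrank ℚ (K m)))) →
          (∀ a b : ℝ, IntervalIntegrable (fun τ => φ (l τ)) volume a b) ∧
          Integrable (fun z => φ (W z)) circles ∧
          ∀ ε : ℝ, 0 < ε → ∃ T : ℝ, 0 < T ∧ ∀ a b : ℝ, T ≤ b - a →
            ‖((1 / (b - a) : ℝ) : ℂ) * (∫ τ in a..b, φ (l τ)) - ∫ z, φ (W z) ∂circles‖ ≤ ε := by
  classical
  have hCB := Run7.h522.BM.CB_pos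
  refine ⟨1 / (8 * Run7.h522.BM.CB), by positivity, ?_⟩
  intro M _ K _ _ n d i N X _ S _ α hα
  have hW : ∀ m, Run7.h522.BM.Wt (S m) (i m) (α m) := by
    intro m v hv j
    obtain ⟨N', β, e, -, hβ, he⟩ := hα m v hv
    rw [he]
    exact norm_of_isFrobenius hβ (e j)
  have hlog : ∀ m, logL (S m) (α m) = Run7.h522.BM.logL (S m) (α m) := by
    intro m
    funext s
    unfold logL Run7.h522.BM.logL
    have h1 := tsum_subtype (({v | v ∉ S m} : Set (HeightOneSpectrum (𝓞 (K m)))))
      (fun v => ∑ j, -Complex.log (1 - α m v j * (Ideal.absNorm v.asIdeal : ℂ) ^ (-s)))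
    refine h1.trans (tsum_congr fun v => ?_)
    unfold Run7.h522.BM.lv
    by_cases hv : v ∈ S m
    · rw [if_pos hv, Set.indicator_of_notMem (by simpa using hv)]
    · rw [if_neg hv, Set.indicator_of_mem (by simpa using hv)]
  have hrs : ∀ (m : M) (Y : ℕ) (z : ℕ → UnitAddCircle),
      randomSum (S m) (i m) (α m) Y z = Run7.h522.BM.PB S i α Y z m := by
    intro m Y z
    unfold randomSum Run7.h522.BM.PB Run7.h522.BM.PY Run7.h522.BM.wv
    have hfs : {v : HeightOneSpectrum (𝓞 (K m)) | v ∉ S m ∧ Ideal.absNorm v.asIdeal < Y} =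
        (((Pool.Agent.W350.EdgeV.FV Pool.Agent.H921R2.TatePole.nm
          Pool.Agent.W350.EdgeNF.hfin Y).filter fun v => v ∉ S m :
            Finset (HeightOneSpectrum (𝓞 (K m)))) : Set (HeightOneSpectrum (𝓞 (K m)))) := by
      ext v
      simp only [Set.mem_ofPred_eq, Finset.coe_filter, Pool.Agent.W350.EdgeV.mem_FV]
      exact and_comm
    rw [hfs, finsum_mem_coe_finset, Finset.sum_filter]
    refine Finset.sum_congr rfl fun v _ => ?_
    by_cases hv : v ∈ S m
    · rw [if_pos hv, if_neg (by simpa using hv)]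
    · rw [if_neg hv, if_pos hv]
      rfl
  obtain ⟨W, hW1, hW2, hW3⟩ := Run7.h522.BM.joint hW
  have hm : ∀ m, AEMeasurable (Run7.h522.BM.logB (S m) (i m) (α m)) := fun m =>
    Run7.h522.BM.aemeasurable_logB (hW m)
  set l : ℝ → M → ℂ := fun τ m => (hm m).mk _ τ with hl
  have hle : ∀ᵐ τ : ℝ, Run7.h522.BM.LB S i α τ = l τ := by
    have h1 : ∀ᵐ τ : ℝ, ∀ m, Run7.h522.BM.logB (S m) (i m) (α m) τ = (hm m).mk _ τ :=
      ae_all_iff.2 fun m => (hm m).ae_eq_mk
    filter_upwards [h1] with τ h2
    funext m
    exact h2 m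
  refine ⟨l, W, measurable_pi_lambda _ fun m => (hm m).measurable_mk, ?_, ?_, ?_⟩
  · have h1 : ∀ᵐ τ : ℝ, ∀ m, τ ∉ Pool.Agent.W350.Edge.divSet
        (Run7.h522.BM.cp (S m) (i m) (α m)) :=
      ae_all_iff.2 fun m => Run7.h522.BM.ae_notMem (hW m)
    filter_upwards [h1, hle] with τ h1 h2 m A
    rw [hlog, ← h2]
    exact (Run7.h522.BM.boundary_value (hW m) (h1 m)).2 A
  · intro m
    have hW1m : MemLp (fun z => W z m) 2 circles := by
      refine MemLp.of_le hW1 ?_ (ae_of_all _ fun z => norm_le_pi_norm (W z) m)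
      exact (continuous_apply m).comp_aestronglyMeasurable hW1.1
    refine ⟨hW1m, ?_⟩
    refine squeeze_zero (fun Y => integral_nonneg fun z => by positivity) (fun Y => ?_) hW2
    have hc := (Run7.h522.BM.memLp_two (Run7.h522.BM.continuous_PB hW Y))
    have hc' := (Run7.h522.BM.memLp_two (Run7.h522.BM.continuous_PY (hW m) Y))
    have hi1 : Integrable (fun z => ‖W z m - randomSum (S m) (i m) (α m) Y z‖ ^ 2) circles := by
      have h3 := (hW1m.sub hc').integrable_norm_pow two_ne_zero
      simp_rw [hrs]
      have h4 : Integrable (fun z => ‖W z m - Run7.h522.BM.PY (S m) (i m) (α m) Y z‖ ^ 2)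
          circles := by simpa using h3
      exact h4
    have hi2 : Integrable (fun z => ‖W z - Run7.h522.BM.PB S i α Y z‖ ^ 2) circles := by
      have h3 := (hW1.sub hc).integrable_norm_pow two_ne_zero
      simpa using h3
    refine integral_mono hi1 hi2 fun z => ?_
    simp only
    rw [hrs]
    exact pow_le_pow_left₀ (norm_nonneg _)
      (norm_le_pi_norm (W z - Run7.h522.BM.PB S i α Y z) m) 2
  · intro φ A hφ hA
    have hA0 : 0 ≤ A := by
      have h1 := (norm_nonneg _).trans (hA 0)
      by_contra h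
      push Not at h
      have h2 := Real.exp_pos (1 / (8 * Run7.h522.BM.CB) *
            ∑ m, ‖(0 : M → ℂ) m‖ / (Fintype.card M * N m * Module.finrank ℚ (K m)))
      nlinarith
    have hA' : ∀ x, ‖φ x‖ ≤ A * Run7.h522.BM.GB K N x := by
      intro x
      refine (hA x).trans (mul_le_mul_of_nonneg_left ?_ hA0)
      unfold Run7.h522.BM.GB
      refine Real.exp_le_exp.2 ?_
      rw [Finset.mul_sum]
      refine Finset.sum_le_sum fun m _ => ?_
      unfold Run7.h522.BM.cf
      have hx := norm_nonneg (x m)
      have hM : (1 : ℝ) ≤ Fintype.card M := by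
        exact_mod_cast Fintype.card_pos_iff.2 ⟨m⟩
      have hK : (1 : ℝ) ≤ Module.finrank ℚ (K m) := by
        exact_mod_cast Module.finrank_pos
      rcases Nat.eq_zero_or_pos (N m) with h0 | h0
      · rw [h0]
        simp only [Nat.cast_zero, mul_zero, zero_mul, div_zero]
        positivity
      · have hN : (1 : ℝ) ≤ N m := by exact_mod_cast h0
        rw [mul_div_assoc', div_mul_eq_mul_div, one_mul, div_div, one_div_mul_eq_div]
        refine div_le_div_of_nonneg_left hx (by positivity) ?_
        have h3 : (N m : ℝ) * Module.finrank ℚ (K m) + 1 ≤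
            2 * ((N m : ℝ) * Module.finrank ℚ (K m)) := by nlinarith
        calc 2 * ((Fintype.card M : ℝ) + 1) *
              (Run7.h522.BM.CB * (N m * Module.finrank ℚ (K m) + 1))
            ≤ 2 * ((Fintype.card M : ℝ) + Fintype.card M) *
              (Run7.h522.BM.CB * (2 * ((N m : ℝ) * Module.finrank ℚ (K m)))) := by gcongr
          _ = _ := by ring
    obtain ⟨h1, h2, h3⟩ := hW3 φ A hφ hA'
    have hae : ∀ a b : ℝ, ∀ᵐ τ ∂(volume.restrict (Set.Ioc a b)),
        φ (Run7.h522.BM.LB S i α τ) = φ (l τ) := fun a b => by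
      filter_upwards [ae_restrict_of_ae hle] with τ h4
      rw [h4]
    have hint : ∀ a b : ℝ, IntegrableOn (fun τ => φ (l τ)) (Set.Ioc a b) := fun a b =>
      (h1 a b).congr (hae a b)
    refine ⟨fun a b => ⟨hint a b, hint b a⟩, h2, fun ε hε => ?_⟩
    obtain ⟨T, hT, h4⟩ := h3 ε hε
    refine ⟨T, by linarith, fun a b hab => ?_⟩
    have h5 := h4 a b hab
    rw [Run7.h522.BM.mab_eq (by linarith), integral_congr_ae (hae a b),
      ← intervalIntegral.integral_of_le (by linarith)] at h5
    exact h5

end Pool.Agent.Results.MP_148101_nt.EdgeDistribution
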