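import Pool.Agent.Run7.h61.MO.Glob
import Pool.Agent.Run7.h61.MO.Rank

/-!
# L-functions of motives of any weight on average, past the edge of convergence

`K` is a number field (for instance `ℚ`). For `i ∈ I` let `f_(i,t)`, `t ∈ (𝓞 K)^(J i)`, be a family of
monic polynomials of degree `d_i ≥ 3`, `f_(i,t) = F_i + ∑ t_j P_j`, in which the `N_i` lowest
coefficients are free (for instance all monic polynomials of degree `d_i`), and let `C_i` be the curve
`y² = f_(i,t)(x)`, of genus `⌊(d_i - 1) / 2⌋`.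

Let `M_t = ⊕_e (⊗_i h¹(C_i)^(⊗ e_i) (-(w - |e|) / 2))^(M_e)` be any direct sum of tensor products of the
`h¹(C_i)` and of Tate motives, pure of weight `w`; all `e_i ≤ N_i` and `e_i < d_i`. By the theorem of
Künneth `M_t` may be `h^w` of the product `X_t = ∏ C_i^(n_i)`: the trace of a power of the Frobenius on
`H^w(X_t)` is the coefficient of `T^w` in `∏ (1 + τ_i T + Q T²)^(n_i)`, where the `τ_i` are its traces on
`H¹(C_i)` and `Q` is the norm.  The conditions are then `min(n_i, w) ≤ N_i` and `min(n_i, w) < d_i`.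

Let `R` be the value of `M` at independent Gaussian variables: the sum over all `e` with only even
entries of `M_e ∏ (e_i - 1)!!`.  This is the dimension of the invariants of `∏ Sp(2 g_i)` in `M_t`; for
`h^w` of `X_t` it is the number of the systems of disjoint pairs of equal factors of `X_t` and of single
factors with `w / 2` members, and this is the dimension of the space of the algebraic classes of
codimension `w / 2` that are generated by the diagonals of the pairs of equal factors and by the points.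
`R = 0` if `w` is odd.

For every integer `k` there is a function `G`, holomorphic for `Re s > (w + 1) / 2` and positive at the
real points of this half-plane, such that

* the mean value of `L(M_t, s)^k` over the `t` in a box for which all curves are smooth converges to
  `ζ_K(s - w/2)^(k R) G(s)` in the half-plane of convergence `Re s > w/2 + 1`;
* so the limit continues to the half-plane on the right of the critical line `Re s = (w + 1) / 2` (it is
  holomorphic there if `R = 0`, for instance if the weight is odd), and `(s - w/2 - 1)^(k R)` times it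
  has a finite positive limit at the edge `s = w/2 + 1`: for `k = 1` it has a pole of order exactly `R`;
* in the whole half-plane `Re s > (w + 1) / 2` the same is true for the partial Euler products.
-/

set_option autoImplicit false
open NumberField IsDedekindDomain Filter Topology

namespace Pool.Agent.Results.MP_148101_nt.TensorMotivesOnAverage

open Run7.h61.MO Run7.h876.EN Run7.h876.HY

open Polynomial in
/-- **The moments of the L-functions of motives of any weight in families.** -/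
theorem result (K : Type) [Field K] [NumberField K] (I : Type) [Fintype I] [DecidableEq I] [Nonempty I]
    (J : I → Type) [∀ i, Fintype (J i)] [∀ i, DecidableEq (J i)] (𝓕 : ∀ i, Run7.h61.MO.Family K (J i)) :
    (∀ (w : ℕ) (M : MvPolynomial I ℕ), IsWt w M →
      (∀ e ∈ M.support, ∀ i, e i ≤ (𝓕 i).N ∧ e i + 1 ≤ (𝓕 i).F₀.natDegree) →
      (Odd w → gaussRank M = 0) ∧
      ∀ k : ℤ, ∃ G : ℂ → ℂ, DifferentiableOn ℂ G {s | (w : ℝ) / 2 + 1 / 2 < s.re} ∧
        (∀ x : ℝ, (w : ℝ) / 2 + 1 / 2 < x → ∃ r : ℝ, 0 < r ∧ G x = r) ∧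
        (∃ c : ℝ, 0 < c ∧ Tendsto (fun x : ℝ => ((x : ℂ) - ((w : ℂ) / 2 + 1)) ^ (k * (gaussRank M : ℤ)) *
          (dedekindZeta K (x - (w : ℂ) / 2) ^ (k * (gaussRank M : ℤ)) * G x)) (𝓝[>] ((w : ℝ) / 2 + 1)) (𝓝 (c : ℂ))) ∧
        ∀ (ι : Type) [Fintype ι] [DecidableEq ι] (ω : Module.Basis ι ℤ (𝓞 K)),
          (∀ δ : ℝ, 0 < δ → ∀ ε : ℝ, 0 < ε → ∃ B : ℕ, ∀ H : (Σ i, J i) → ℕ, (∀ j, B ≤ H j) →
            ∀ s : ℂ, (w : ℝ) / 2 + 1 + δ ≤ s.re →
            ‖mean ω H (Run7.h61.MO.smooth 𝓕) (fun t => Run7.h61.MO.LSeries 𝓕 w M t s ^ k) -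
              dedekindZeta K (s - (w : ℂ) / 2) ^ (k * (gaussRank M : ℤ)) * G s‖ ≤ ε) ∧
          (∀ σ : ℝ, (w : ℝ) / 2 + 1 / 2 < σ → ∀ θ : ℝ, 0 < θ → ∀ ε : ℝ, 0 < ε → ∃ Z₀ : ℕ, ∀ Z : ℕ, Z₀ ≤ Z →
            ∀ H : (Σ i, J i) → ℕ, (∀ j, Real.exp ((Z : ℝ) ^ (1 + θ)) ≤ H j) → ∀ s : ℂ, σ ≤ s.re →
            ‖mean ω H (Run7.h61.MO.smooth 𝓕) (fun t => Run7.h61.MO.partialProduct 𝓕 Z w M t s ^ k) *
              (partialZeta K Z (s - (w : ℂ) / 2) ^ (k * (gaussRank M : ℤ)))⁻¹ - G s‖ ≤ ε)) ∧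
    ∀ (n : I → ℕ) (w : ℕ), IsWt w (kunneth n w) ∧
      ((∀ i, min (n i) w ≤ (𝓕 i).N ∧ min (n i) w + 1 ≤ (𝓕 i).F₀.natDegree) →
        ∀ e ∈ (kunneth n w).support, ∀ i, e i ≤ (𝓕 i).N ∧ e i + 1 ≤ (𝓕 i).F₀.natDegree) ∧
      (∀ (τ : I → ℤ) (Q : ℤ), 0 < Q →
        mtr w (kunneth n w) τ Q = (∏ i, (1 + C (τ i) * X + C Q * X ^ 2) ^ n i : ℤ[X]).coeff w) ∧
      gaussRank (kunneth n w) = (∏ i, ∑ j ∈ Finset.range (n i + 1),
        C ((n i).choose j * gm j) * X ^ j * (1 + X ^ 2) ^ (n i - j) : ℕ[X]).coeff w := by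
  refine ⟨fun w M hM hB => ⟨fun hw => gaussRank_odd hw hM, fun k => ?_⟩, fun n w =>
    ⟨kunneth_isWt n w, fun h e he i => ?_, fun τ Q hQ => kunneth_trace n w τ hQ, kunneth_rank n w⟩⟩
  · obtain ⟨𝓐, ha, hh, hR⟩ := exists_fam 𝓕 hM hB
    have hc : (((w : ℝ) / 2 : ℝ) : ℂ) = (w : ℂ) / 2 := by push_cast; rfl
    have h := Run7.h61.TA.abstract 𝓐 (Run7.h61.MO.factor 𝓕 w M) (fun t v s => by
      rw [ha]
      exact factor_eq 𝓕 w M t v s) (G₀ := Run7.h61.MO.smooth 𝓕) (fun ι _ _ ω =>
        ⟨_, Finset.sum_nonneg fun i _ => by positivity, thin_smooth 𝓕 ω⟩) k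
    rw [hh, hR, hc] at h
    exact h
  · have h1 := kunneth_le n w e he i
    have h2 : e i ≤ w := by
      refine le_trans ?_ (kunneth_isWt n w e he).1
      rw [Finsupp.degree_eq_sum]
      exact Finset.single_le_sum (fun _ _ => Nat.zero_le _) (Finset.mem_univ i)
    have h3 := h i
    have h4 : e i ≤ min (n i) w := le_min h1 h2
    omega

end Pool.Agent.Results.MP_148101_nt.TensorMotivesOnAverage
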